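import Pool.Agent.H752.NX.Stubs
import Pool.Agent.NPC.Dec

/-!
# X7: binary search with an `NP` oracle
-/

namespace Pool.Agent.H752.NX

open Pool.Agent.NPC Pool.Agent.H620R2.Gauge Pool.Agent.H752.GE

theorem X7_foldl (b : List Bool) : ∀ a : ℕ,
    b.foldl (fun a b => 2 * a + b.toNat) a = a * 2 ^ b.length + val b := by
  induction b with
  | nil => intro a; simp [val]
  | cons c b ih =>
    intro a
    have h1 := ih (2 * a + c.toNat)
    have h2 := ih (2 * 0 + c.toNat)
    unfold val
    rw [List.foldl_cons, List.foldl_cons, h1, h2, List.length_cons, pow_succ]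
    ring

theorem X7_append (a b : List Bool) : val (a ++ b) = val a * 2 ^ b.length + val b := by
  unfold val
  rw [List.foldl_append]
  exact X7_foldl b _

theorem X7_lt (b : List Bool) : val b < 2 ^ b.length := by
  induction b using List.reverseRecOn with
  | nil => simp [val]
  | append_singleton b c ih =>
    rw [X7_append, List.length_append, pow_add]
    have : val [c] < 2 := by cases c <;> simp [val]
    simp only [List.length_cons, List.length_nil, zero_add, pow_one]
    omega

theorem X7_inj {x x' p p' : List Bool} (h : pairBits x p = pairBits x' p') : x = x' ∧ p = p' := by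
  have := congrArg unpair h
  rw [unpair_pairBits, unpair_pairBits, Prod.mk.injEq] at this
  exact this

theorem t_pnp (h5 : St_srch) (h6 : St_alg) : St_pnp := by
  intro R S Acc e A hreq
  classical
  refine ⟨srch R S e A, h5 R S e A, ?_⟩
  obtain ⟨M, hM⟩ := h6 S e
  choose t ht1 ht2 ht3 ht4 using hreq
  have hB : ∀ x, M.out (srch R S e A) x = some [(t x).getLastD false] := by
    intro x
    refine hM _ x (t x) (ht1 x) ?_
    intro k hk
    have hsplit : t x = (t x).take k ++ (t x)[k] :: (t x).drop (k + 1) := by
      rw [List.getElem_cons_drop, List.take_append_drop]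
    have hget : (t x).getD k false = (t x)[k] := List.getD_eq_getElem _ _ hk
    rw [hget]
    rcases hb : (t x)[k] with _ | _
    · -- false
      unfold srch
      rw [decide_eq_false_iff_not]
      rintro ⟨x', p, v, z, hq, hl, hz, hA⟩
      obtain ⟨rfl, rfl⟩ := X7_inj hq
      refine ht3 x _ hl ?_ ⟨z, hz, hA⟩
      rw [hb] at hsplit
      have hlen : ((t x).drop (k + 1)).length = v.length := by
        have h1 := ht1 x
        rw [← hl] at h1
        rw [List.length_drop]
        rw [List.length_append, List.length_append, List.length_take, List.length_singleton,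
          min_eq_left hk.le] at h1
        omega
      have e1 : val (t x) = (2 * val ((t x).take k)) * 2 ^ v.length +
          val ((t x).drop (k + 1)) := by
        conv_lhs => rw [hsplit]
        rw [show (t x).take k ++ false :: (t x).drop (k + 1) =
          ((t x).take k ++ [false]) ++ (t x).drop (k + 1) by simp, X7_append, X7_append, hlen]
        simp [val]
        ring
      have e2 : val ((t x).take k ++ [true] ++ v) =
          (2 * val ((t x).take k) + 1) * 2 ^ v.length + val v := by
        rw [X7_append, X7_append]
        simp [val]
        ring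
      have e3 := X7_lt ((t x).drop (k + 1))
      rw [hlen] at e3
      rw [e1, e2, add_mul]
      omega
    · refine decide_eq_true ?_
      have hpos : val (t x) ≠ 0 := by
        rw [hb] at hsplit
        rw [hsplit, show (t x).take k ++ true :: (t x).drop (k + 1) =
          ((t x).take k ++ [true]) ++ (t x).drop (k + 1) by simp, X7_append, X7_append]
        have : 0 < 2 ^ ((t x).drop (k + 1)).length := by positivity
        have h1 : val [true] = 1 := by simp [val]
        rw [h1]
        have : 0 < (val ((t x).take k) * 2 ^ [true].length + 1) *
            2 ^ ((t x).drop (k + 1)).length := by positivity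
        omega
      obtain ⟨z, hz, hA⟩ := (ht2 x).resolve_left hpos
      have e0 : (t x).take k ++ [true] ++ (t x).drop (k + 1) = t x := by
        rw [hb] at hsplit
        conv_rhs => rw [hsplit]
        simp
      exact ⟨x, _, (t x).drop (k + 1), z, rfl, by rw [e0]; exact ht1 x, hz, by rw [e0]; exact hA⟩
  refine ⟨fun x => [(t x).getLastD false], ⟨M, hB⟩, fun x => ?_⟩
  show Acc (e, x) A ↔ [(t x).getLastD false] = [true]
  rw [ht4 x]
  have hne : t x ≠ [] := by
    intro h
    have := ht1 x
    rw [h] at this
    simp [lX] at this
  obtain ⟨s, b, hs⟩ : ∃ s b, t x = s ++ [b] := ⟨_, _, (List.dropLast_append_getLast hne).symm⟩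
  rw [hs, X7_append]
  simp only [List.length_singleton, pow_one, List.cons.injEq, and_true]
  rw [List.getLastD_concat]
  cases b
  · simp [val]
  · simp [val]

end Pool.Agent.H752.NX
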